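import Pool.Agent.Y104.Vry

/-!
# Project WL, piece OPT: the first order condition (core)
-/

open Finset Module Matrix
open Filter Topology

set_option linter.unusedSectionVars false

namespace Pool.Agent.Y977.WL

open Pool.Agent.Y104.Kempf

theorem ev_nonpos {a b : ℝ} (h : a < 0 ∨ a = 0 ∧ b ≤ 0) :
    ∀ᶠ s : ℝ in 𝓝[>] 0, a + s * b ≤ 0 := by
  rcases h with h | ⟨rfl, h⟩
  · have h1 : Tendsto (fun s : ℝ => a + s * b) (𝓝[>] 0) (𝓝 (a + 0 * b)) := by
      have h2 : Continuous fun s : ℝ => a + s * b := by fun_prop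
      exact (h2.tendsto 0).mono_left nhdsWithin_le_nhds
    rw [zero_mul, add_zero] at h1
    filter_upwards [h1.eventually (gt_mem_nhds h)] with s hs using hs.le
  · filter_upwards [self_mem_nhdsWithin] with s hs
    rw [zero_add]
    exact mul_nonpos_of_nonneg_of_nonpos (le_of_lt hs) h

theorem ev_pos {f : ℝ → ℝ} (hf : Continuous f) (h : 0 < f 0) : ∀ᶠ s : ℝ in 𝓝[>] 0, 0 < f s :=
  ((hf.tendsto 0).mono_left nhdsWithin_le_nhds).eventually (lt_mem_nhds h)

section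

variable {ι : Type} [Fintype ι] [DecidableEq ι] {b : ι → Type} [∀ i, Fintype (b i)]
  [∀ i, DecidableEq (b i)] {S : Type} [Fintype S] [DecidableEq S] {c : S → ι}
  {K : Type*} [Field K] {L : Type*} [Field L] [Algebra K L]

theorem opt_core {Q : ∀ j, Matrix (b j) (b j) L} {N : Set ((∀ s, b (c s)) → K)}
    {w : ∀ j, (b j → L) → ℝ} {t : ℝ}
    (ht : 0 < t) (hw : Adm2 Q w) (hg : Ge N t w)
    (hopt : ∀ (w' : ∀ j, (b j → L) → ℝ) (t' : ℝ), Adm2 Q w' → Ge N t' w' → t' ≤ t)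
    {e : ∀ j, Basis (b j) L (b j → L)} (he : ∀ j, Adp (w j) (e j)) (y : ∀ j, b j → ℝ)
    (hy0 : ∀ j, ∑ p, y j p = 0)
    (hyQ : ∀ j p q, Rl Q e j p q → w j (e j p) + w j (e j q) = 0 → y j p + y j q ≤ 0) (τ : ℝ)
    (hyN : ∀ z ∈ N, ∀ J : ∀ s, b (c s), ev z (fun s => e (c s) (J s)) ≠ 0 →
      ∑ s, w (c s) (e (c s) (J s)) = -t → ∑ s, y (c s) (J s) ≤ -τ) :
    τ ≤ t * ∑ j, ∑ p, w j (e j p) * y j p := by
  classical
  obtain ⟨hw1, hw2⟩ := hw.1.any he
  set A : ℝ := ∑ j, ∑ p, w j (e j p) * y j p with hA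
  set B : ℝ := ∑ j, ∑ p, y j p ^ 2 with hB
  set C : ℝ := ∑ j, ∑ p, w j (e j p) ^ 2 with hC
  have E1 : ∀ᶠ s : ℝ in 𝓝[>] 0, ∀ j, ∀ p q : b j, Rl Q e j p q →
      (w j (e j p) + w j (e j q)) + s * (y j p + y j q) ≤ 0 := by
    rw [Filter.eventually_all]
    intro j
    rw [Filter.eventually_all]
    intro p
    rw [Filter.eventually_all]
    intro q
    by_cases hR : Rl Q e j p q
    · have h1 := hw.2 j _ _ hR
      have h2 : w j (e j p) + w j (e j q) < 0 ∨
          w j (e j p) + w j (e j q) = 0 ∧ y j p + y j q ≤ 0 := by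
        rcases lt_or_eq_of_le h1 with h2 | h2
        · exact Or.inl h2
        · exact Or.inr ⟨h2, hyQ j p q hR h2⟩
      filter_upwards [ev_nonpos h2] with s hs _ using hs
    · exact Eventually.of_forall fun s h => absurd h hR
  have E2 : ∀ᶠ s : ℝ in 𝓝[>] 0, ∀ J : ∀ s, b (c s),
      (∃ z ∈ N, ev z (fun s => e (c s) (J s)) ≠ 0) →
      (∑ s, w (c s) (e (c s) (J s)) + t) + s * (∑ s, y (c s) (J s) + τ) ≤ 0 := by
    rw [Filter.eventually_all]
    intro J
    by_cases hR : ∃ z ∈ N, ev z (fun s => e (c s) (J s)) ≠ 0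
    · obtain ⟨z, hz, hJ⟩ := hR
      have h1 := hg z hz _ hJ
      have h2 : ∑ s, w (c s) (e (c s) (J s)) + t < 0 ∨
          ∑ s, w (c s) (e (c s) (J s)) + t = 0 ∧ ∑ s, y (c s) (J s) + τ ≤ 0 := by
        rcases lt_or_eq_of_le h1 with h2 | h2
        · left; linarith
        · right
          have := hyN z hz J hJ h2
          exact ⟨by rw [h2]; ring, by linarith⟩
      filter_upwards [ev_nonpos h2] with s hs _ using hs
    · exact Eventually.of_forall fun s h => absurd h hR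
  have E3 : ∀ᶠ s : ℝ in 𝓝[>] 0, 0 < 1 + 2 * s * A + s ^ 2 * B :=
    ev_pos (f := fun s => 1 + 2 * s * A + s ^ 2 * B) (by fun_prop) (by norm_num)
  have E4 : ∀ᶠ s : ℝ in 𝓝[>] 0, 0 < t + s * τ :=
    ev_pos (f := fun s => t + s * τ) (by fun_prop) (by simpa using ht)
  have E5 : ∀ᶠ s : ℝ in 𝓝[>] 0, 2 * t * τ + s * τ ^ 2 ≤ t ^ 2 * (2 * A + s * B) := by
    filter_upwards [E1, E2, E3, E4, self_mem_nhdsWithin] with s h1 h2 h3 h4 hs
    have hs0 : 0 < s := hs
    let ω : (Σ j, b j) → ℝ := fun x => w x.1 (e x.1 x.2) + s * y x.1 x.2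
    have hnorm : ∑ x, ω x ^ 2 = C + 2 * s * A + s ^ 2 * B := by
      rw [Fintype.sum_sigma]
      have h1 : ∀ j, ∑ p, ω ⟨j, p⟩ ^ 2 = ∑ p, w j (e j p) ^ 2 +
          (2 * s * ∑ p, w j (e j p) * y j p) + s ^ 2 * ∑ p, y j p ^ 2 := by
        intro j
        rw [Finset.mul_sum, Finset.mul_sum, ← Finset.sum_add_distrib, ← Finset.sum_add_distrib]
        refine Finset.sum_congr rfl fun p _ => ?_
        simp only [ω]
        ring
      simp only [h1]
      rw [Finset.sum_add_distrib, Finset.sum_add_distrib, ← Finset.mul_sum, ← Finset.mul_sum,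
        ← hA, ← hB, ← hC]
    set D : ℝ := 1 + 2 * s * A + s ^ 2 * B with hD
    have hDle : ∑ x, ω x ^ 2 ≤ D := by
      rw [hnorm, hD]
      linarith
    set r : ℝ := (Real.sqrt D)⁻¹ with hr
    have hsq : 0 < Real.sqrt D := Real.sqrt_pos.2 h3
    have hr0 : 0 < r := inv_pos.2 hsq
    have hrD : r ^ 2 * D = 1 := by
      rw [hr, inv_pow, Real.sq_sqrt h3.le]
      exact inv_mul_cancel₀ h3.ne'
    have hCs : (fun x => r * ω x) ∈ Cset2 b (Rl Q e) := by
      refine ⟨⟨fun j => ?_, ?_⟩, fun j p q hR => ?_⟩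
      · rw [← Finset.mul_sum]
        simp only [ω]
        rw [Finset.sum_add_distrib, ← Finset.mul_sum, hw1 j, hy0 j]
        ring
      · simp only [mul_pow]
        rw [← Finset.mul_sum, ← hrD]
        exact mul_le_mul_of_nonneg_left hDle (sq_nonneg r)
      · have h5 := h1 j p q hR
        have h6 : r * ω ⟨j, p⟩ + r * ω ⟨j, q⟩ =
            r * ((w j (e j p) + w j (e j q)) + s * (y j p + y j q)) := by
          simp only [ω]
          ring
        rw [h6]
        exact mul_nonpos_of_nonneg_of_nonpos hr0.le h5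
    have hGe : Ge N (r * (t + s * τ)) fun j => nrm (e j) (fun p => (fun x => r * ω x) ⟨j, p⟩) := by
      refine Ge.of_weights (ω := fun x => r * ω x) e fun J hJ => ?_
      have h5 := h2 J hJ
      rw [← Finset.mul_sum]
      have h6 : ∑ s, ω ⟨c s, J s⟩ = ∑ s, w (c s) (e (c s) (J s)) + s * ∑ s, y (c s) (J s) := by
        rw [Finset.mul_sum, ← Finset.sum_add_distrib]
      rw [h6, ← mul_neg]
      refine mul_le_mul_of_nonneg_left ?_ hr0.le
      linarith
    have h5 := hopt _ _ (Adm2.of_weights Q e hCs) hGe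
    have h6 : t + s * τ ≤ t * Real.sqrt D := by
      rw [hr, inv_mul_eq_div, div_le_iff₀ hsq] at h5
      exact h5
    have h7 : (t + s * τ) ^ 2 ≤ t ^ 2 * D := by
      calc (t + s * τ) ^ 2 ≤ (t * Real.sqrt D) ^ 2 := pow_le_pow_left₀ h4.le h6 2
        _ = t ^ 2 * D := by rw [mul_pow, Real.sq_sqrt h3.le]
    have h8 : s * (2 * t * τ + s * τ ^ 2) ≤ s * (t ^ 2 * (2 * A + s * B)) := by
      rw [hD] at h7
      nlinarith
    exact le_of_mul_le_mul_left h8 hs0
  have T1 : Tendsto (fun s : ℝ => 2 * t * τ + s * τ ^ 2) (𝓝[>] 0) (𝓝 (2 * t * τ + 0 * τ ^ 2)) := by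
    have h2 : Continuous fun s : ℝ => 2 * t * τ + s * τ ^ 2 := by fun_prop
    exact (h2.tendsto 0).mono_left nhdsWithin_le_nhds
  have T2 : Tendsto (fun s : ℝ => t ^ 2 * (2 * A + s * B)) (𝓝[>] 0)
      (𝓝 (t ^ 2 * (2 * A + 0 * B))) := by
    have h2 : Continuous fun s : ℝ => t ^ 2 * (2 * A + s * B) := by fun_prop
    exact (h2.tendsto 0).mono_left nhdsWithin_le_nhds
  have h1 := le_of_tendsto_of_tendsto T1 T2 E5
  rw [zero_mul, zero_mul, add_zero, add_zero] at h1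
  have h2 : 2 * t * τ ≤ 2 * t * (t * A) := by linarith
  exact le_of_mul_le_mul_left h2 (by linarith)

end

end Pool.Agent.Y977.WL
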