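import Pool.Agent.Y104.WL.Stm
import Pool.Agent.Y977.WL.OptC

/-!
# Project WL, piece OPT: the first order condition
-/

universe u

namespace Pool.Agent.Y977.WL

theorem opt_first : Pool.Agent.Y104.WL.S_OPT.{u} := by
  intro ι _ _ b _ _ S _ _ c K _ L _ _ Q N w t h e he y hy0 hyQ τ hyN
  exact opt_core h.pos h.adm h.ge h.opt he y hy0 hyQ τ hyN

end Pool.Agent.Y977.WL
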